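import Pool.Agent.Y466.TW.Stm

/-! # Unimodular classes on tori: both signs of the signature -/

set_option autoImplicit false

namespace Pool.Agent.Y466.TW

open Matrix
open scoped Kronecker
open Pool.Agent.Results.MP_69cf13_gt.EEightPlusTenH

/-- The Gram matrix of the lattice `k E₈ ⊕ l H` (`|k|` copies of `- E₈` if `k < 0`). -/
def gramZ (k : ℤ) (l : ℕ) : Matrix ((Fin k.natAbs × Fin 8) ⊕ (Fin l × Fin 2))
    ((Fin k.natAbs × Fin 8) ⊕ (Fin l × Fin 2)) ℤ :=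
  fromBlocks (k.sign • ((1 : Matrix (Fin k.natAbs) (Fin k.natAbs) ℤ) ⊗ₖ CartanMatrix.E₈)) 0 0
    ((1 : Matrix (Fin l) (Fin l) ℤ) ⊗ₖ !![0, 1; 1, 0])

/-- the sign changes -/
def sg {k l : ℕ} : (Fin k × Fin 8) ⊕ (Fin l × Fin 2) → ℤˣ
  | .inl _ => 1
  | .inr (_, c) => if c = 0 then -1 else 1

theorem neg_real {n k : ℕ} (h : Realized n k) :
    ∃ ω ∈ H n (n - 4), ∃ φ : Coh n → Coh n → ℤ, IsFormOf (H n 2) ω (T n) φ ∧
    ∃ (l : ℕ) (b : (Fin k × Fin 8) ⊕ (Fin l × Fin 2) → Coh n), 8 * k + 2 * l = n.choose 2 ∧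
      IsZBasis (H n 2) b ∧ ∀ i j, φ (b i) (b j) =
        fromBlocks (-((1 : Matrix (Fin k) (Fin k) ℤ) ⊗ₖ CartanMatrix.E₈)) 0 0
          ((1 : Matrix (Fin l) (Fin l) ℤ) ⊗ₖ !![0, 1; 1, 0]) i j := by
  obtain ⟨ω, hω, φ, hφ, l, b, hl, ⟨hb1, hb2, hb3⟩, hb⟩ := h
  have hmem : ∀ i, (sg i : ℤˣ) • b i ∈ H n 2 := by
    intro i
    have h1 := hb1 i
    rcases Int.units_eq_one_or (sg i) with h | h
    · rw [h, one_smul]; exact h1
    · rw [h, Units.neg_smul, one_smul]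
      exact Submodule.neg_mem (⋀[ℤ]^2 (Fin n → ℤ)) h1
  have hneg : -ω ∈ H n (n - 4) :=
    Submodule.neg_mem (⋀[ℤ]^(n - 4) (Fin n → ℤ)) hω
  -- values of `φ` on signed elements
  have hval : ∀ (u v : ℤˣ) (x y : Coh n), x ∈ H n 2 → y ∈ H n 2 → u • x ∈ H n 2 →
      v • y ∈ H n 2 → φ (u • x) (v • y) = (u : ℤ) * v * φ x y := by
    intro u v x y hx hy hux hvy
    have h1 := hφ _ hux _ hvy
    have h2 := hφ _ hx _ hy
    have h3 : (φ (u • x) (v • y)) • T n = ((u : ℤ) * v * φ x y) • T n := by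
      rw [← h1, mul_smul, ← h2]
      rcases Int.units_eq_one_or u with rfl | rfl <;> rcases Int.units_eq_one_or v with rfl | rfl <;>
        simp [Units.neg_smul]
    have h4 := congrArg (Aux.vol n) h3
    rw [map_smul, map_smul, Aux.vol_T] at h4
    simpa using h4
  refine ⟨-ω, hneg, fun x y => -φ x y, ?_, l, fun i => (sg i : ℤˣ) • b i, hl, ⟨hmem, ?_, ?_⟩, ?_⟩
  · intro x hx y hy
    rw [mul_neg, hφ x hx y hy, neg_smul]
  · exact LinearIndependent.units_smul hb2 sg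
  · intro z hz
    have h1 := hb3 z hz
    refine Submodule.span_le.2 ?_ h1
    rintro _ ⟨i, rfl⟩
    have h2 : b i = ((sg i : ℤˣ) : ℤ) • ((sg i : ℤˣ) • b i) := by
      rw [Units.smul_def, smul_smul]
      rcases Int.units_eq_one_or (sg i) with h | h <;> rw [h] <;> simp
    rw [SetLike.mem_coe, h2]
    exact Submodule.smul_mem _ _ (Submodule.subset_span ⟨i, rfl⟩)
  · intro i j
    dsimp only
    rw [hval _ _ _ _ (hb1 i) (hb1 j) (hmem i) (hmem j), hb]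
    rcases i with ⟨i, c⟩ | ⟨i, c⟩ <;> rcases j with ⟨j, d⟩ | ⟨j, d⟩
    · simp [gramEH, sg]
    · simp [gramEH, sg]
    · simp [gramEH, sg]
    · fin_cases c <;> fin_cases d <;> simp [gramEH, sg]

theorem real_int {n : ℕ} {k : ℤ} (hk : k ≠ 0) (h : Realized n k.natAbs) :
    ∃ ω ∈ H n (n - 4), ∃ φ : Coh n → Coh n → ℤ, IsFormOf (H n 2) ω (T n) φ ∧
    ∃ (l : ℕ) (b : (Fin k.natAbs × Fin 8) ⊕ (Fin l × Fin 2) → Coh n),
      8 * k.natAbs + 2 * l = n.choose 2 ∧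
      IsZBasis (H n 2) b ∧ ∀ i j, φ (b i) (b j) = gramZ k l i j := by
  rcases lt_or_gt_of_ne hk with h0 | h0
  · obtain ⟨ω, hω, φ, hφ, l, b, hl, hb, h1⟩ := neg_real h
    refine ⟨ω, hω, φ, hφ, l, b, hl, hb, fun i j => ?_⟩
    rw [h1, gramZ, Int.sign_eq_neg_one_of_neg h0, neg_smul, one_smul]
  · obtain ⟨ω, hω, φ, hφ, l, b, hl, hb, h1⟩ := h
    refine ⟨ω, hω, φ, hφ, l, b, hl, hb, fun i j => ?_⟩
    rw [h1, gramZ, gramEH, Int.sign_eq_one_of_pos h0, one_smul]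

end Pool.Agent.Y466.TW
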