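import Pool.Agent.Results.MP_69cf13_gt.EEightPlusTenH

/-! # Unimodular classes on tori: non-existence, statements of the jobs TW-NO* -/

set_option autoImplicit false

namespace Pool.Agent.Y466.TW

open Pool.Agent.Results.MP_69cf13_gt.EEightPlusTenH

/-- the class `ω` has a unimodular form on `H^2(Z^n)`: for some (finite) `Z`-basis of `H^2(Z^n)` the
Gram matrix of `φ_ω` has determinant `± 1` -/
def Unimodular (n : ℕ) (ω : Coh n) : Prop :=
  ∃ φ : Coh n → Coh n → ℤ, IsFormOf (H n 2) ω (T n) φ ∧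
    ∃ (m : ℕ) (b : Fin m → Coh n), IsZBasis (H n 2) b ∧
      |(Matrix.of fun i j => φ (b i) (b j)).det| = 1

/-- TW-NO: there is no unimodular class when `n ≡ 2, 3` modulo `4` (the rank `n (n - 1) / 2` is odd) -/
def NO : Prop := ∀ (n : ℕ) (ω : Coh n), 4 ≤ n → n % 4 = 2 ∨ n % 4 = 3 → ω ∈ H n (n - 4) →
  ¬ Unimodular n ω

/-- TW-NO5: there is no unimodular class when `n = 5` -/
def NOFIVE : Prop := ∀ ω : Coh 5, ω ∈ H 5 1 → ¬ Unimodular 5 ω

end Pool.Agent.Y466.TW
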