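import Pool.Agent.Results.MP_69cf13_gt.EEightPlusTenH

/-! # Unimodular classes on tori with form `k E₈ ⊕ ℓ H`: definitions and statements of the jobs TW-* -/

set_option autoImplicit false

namespace Pool.Agent.Y466.TW

open Matrix
open scoped Kronecker

/-- increasing pairs -/
abbrev P (ι : Type) [LinearOrder ι] : Type := {p : ι × ι // p.1 < p.2}

/-- totally antisymmetric functions of four indices -/
def Alt {ι : Type} (w : ι → ι → ι → ι → ℤ) : Prop :=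
  (∀ i j k l, w j i k l = -w i j k l) ∧ (∀ i j k l, w i k j l = -w i j k l) ∧
    (∀ i j k l, w i j l k = -w i j k l)

/-- the Gram matrix of `w` on increasing pairs -/
def gram {ι : Type} [LinearOrder ι] (w : ι → ι → ι → ι → ℤ) : Matrix (P ι) (P ι) ℤ :=
  fun p q => w p.1.1 p.1.2 q.1.1 q.1.2

/-- the entries of a matrix above the diagonal -/
def vec {ι : Type} [LinearOrder ι] (σ : Matrix ι ι ℤ) : P ι → ℤ := fun p => σ p.1.1 p.1.2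

/-- congruence over the integers of matrices with possibly different index sets -/
def Cong {α β : Type} [Fintype α] [DecidableEq α] [Fintype β] [DecidableEq β]
    (G : Matrix α α ℤ) (G' : Matrix β β ℤ) : Prop :=
  ∃ (Q : Matrix α β ℤ) (R : Matrix β α ℤ), Q * R = 1 ∧ R * Q = 1 ∧ Qᵀ * G * Q = G'

/-- the standard symplectic matrix -/
def J (α : Type) [DecidableEq α] : Matrix (α ⊕ α) (α ⊕ α) ℤ := fromBlocks 0 1 (-1) 0

/-- the standard hyperbolic matrix -/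
def Hyp (α : Type) [DecidableEq α] : Matrix (α ⊕ α) (α ⊕ α) ℤ := fromBlocks 0 1 1 0

/-- the matrix of `|α| E₈ ⊕ |β| H` -/
def EH (α β : Type) [DecidableEq α] [DecidableEq β] :
    Matrix ((α × Fin 8) ⊕ (β ⊕ β)) ((α × Fin 8) ⊕ (β ⊕ β)) ℤ :=
  fromBlocks ((1 : Matrix α α ℤ) ⊗ₖ CartanMatrix.E₈) 0 0 (Hyp β)

/-- unimodular skew matrices -/
def SP {ι : Type} [Fintype ι] [DecidableEq ι] (σ : Matrix ι ι ℤ) : Prop :=
  ∃ (α : Type) (_ : Fintype α) (_ : DecidableEq α), Cong σ (J α)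

/-- `G` is a Gram matrix of `k E₈ ⊕ ℓ H` for some `ℓ` -/
def Typ {ι : Type} [Fintype ι] [DecidableEq ι] (G : Matrix ι ι ℤ) (k : ℕ) : Prop :=
  ∃ (α β : Type) (_ : Fintype α) (_ : DecidableEq α) (_ : Fintype β) (_ : DecidableEq β),
    Fintype.card α = k ∧ Cong G (EH α β)

/-- the data carried through the induction -/
def AData (ι : Type) [Fintype ι] [LinearOrder ι] (k : ℕ) : Prop :=
  ∃ (w : ι → ι → ι → ι → ℤ) (σ₁ σ₂ : Matrix ι ι ℤ) (u₁ u₂ : P ι → ℤ),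
    Alt w ∧ Typ (gram w) k ∧ SP σ₁ ∧ SP σ₂ ∧ gram w *ᵥ u₁ = vec σ₁ ∧ gram w *ᵥ u₂ = vec σ₂ ∧
      u₁ ⬝ᵥ vec σ₁ = 0 ∧ u₁ ⬝ᵥ vec σ₂ = 0 ∧ u₂ ⬝ᵥ vec σ₂ = 2

/-- the product class `w_A + w_B + σ ∧ τ` -/
def prodW {ι κ : Type} (wA : ι → ι → ι → ι → ℤ) (wB : κ → κ → κ → κ → ℤ) (σ : Matrix ι ι ℤ)
    (τ : Matrix κ κ ℤ) (a b c d : ι ⊕ κ) : ℤ :=
  let S : Matrix (ι ⊕ κ) (ι ⊕ κ) ℤ := fromBlocks σ 0 0 0
  let T : Matrix (ι ⊕ κ) (ι ⊕ κ) ℤ := fromBlocks 0 0 0 τ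
  (match a, b, c, d with
    | .inl i, .inl j, .inl k, .inl l => wA i j k l
    | .inr i, .inr j, .inr k, .inr l => wB i j k l
    | _, _, _, _ => 0) +
  (S a b * T c d - S a c * T b d + S a d * T b c + S b c * T a d - S b d * T a c + S c d * T a b)

/-- TW-CONGA: the algebra of congruence -/
def CONGA : Prop :=
  (∀ (α β γ : Type) [Fintype α] [DecidableEq α] [Fintype β] [DecidableEq β] [Fintype γ]
    [DecidableEq γ] (G : Matrix α α ℤ) (G' : Matrix β β ℤ) (G'' : Matrix γ γ ℤ),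
    Cong G G' → Cong G' G'' → Cong G G'') ∧
  (∀ (α β : Type) [Fintype α] [DecidableEq α] [Fintype β] [DecidableEq β] (G : Matrix α α ℤ)
    (e : β ≃ α), Cong G (G.submatrix e e) ∧ Cong (G.submatrix e e) G) ∧
  -- block sums
  (∀ (α β γ δ : Type) [Fintype α] [DecidableEq α] [Fintype β] [DecidableEq β] [Fintype γ]
    [DecidableEq γ] [Fintype δ] [DecidableEq δ] (G : Matrix α α ℤ) (G' : Matrix β β ℤ)
    (G₁ : Matrix γ γ ℤ) (G₁' : Matrix δ δ ℤ), Cong G G' → Cong G₁ G₁' →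
    Cong (fromBlocks G 0 0 G₁) (fromBlocks G' 0 0 G₁')) ∧
  -- direct sums of symplectic forms
  (∀ (ι κ : Type) [Fintype ι] [DecidableEq ι] [Fintype κ] [DecidableEq κ] (σ : Matrix ι ι ℤ)
    (τ : Matrix κ κ ℤ), SP σ → SP τ → SP (fromBlocks σ 0 0 τ)) ∧
  -- elimination
  (∀ (α β : Type) [Fintype α] [DecidableEq α] [Fintype β] [DecidableEq β] (G : Matrix α α ℤ)
    (G' : Matrix β β ℤ) (s u : α → ℤ) (t : β → ℤ), Gᵀ = G → G *ᵥ u = s → u ⬝ᵥ s = 0 →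
    Cong (fromBlocks G (vecMulVec s t) (vecMulVec t s) G') (fromBlocks G 0 0 G'))

/-- TW-CONGB: sums of forms of known type -/
def CONGB : Prop :=
  -- direct sums of forms of known type
  (∀ (α β : Type) [Fintype α] [DecidableEq α] [Fintype β] [DecidableEq β] (G : Matrix α α ℤ)
    (G' : Matrix β β ℤ) (k k' : ℕ), Typ G k → Typ G' k' → Typ (fromBlocks G 0 0 G') (k + k')) ∧
  -- tensor products of symplectic forms are hyperbolic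
  (∀ (α ι κ : Type) [Fintype α] [DecidableEq α] [Fintype ι] [DecidableEq ι] [Fintype κ]
    [DecidableEq κ] (G : Matrix α α ℤ) (k : ℕ) (σ : Matrix ι ι ℤ) (τ : Matrix κ κ ℤ),
    Typ G k → SP σ → SP τ → Typ (fromBlocks G 0 0 (-(σ ⊗ₖ τ))) k)

/-- a function on increasing pairs of `ι ⊕ₗ κ` from functions on the increasing pairs of `ι`, `κ` -/
def join {ι κ : Type} [LinearOrder ι] [LinearOrder κ] (x : P ι → ℤ) (y : P κ → ℤ) :
    P (ι ⊕ₗ κ) → ℤ := fun p =>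
  match ofLex p.1.1, ofLex p.1.2 with
  | .inl i, .inl j => if h : i < j then x ⟨(i, j), h⟩ else 0
  | .inr i, .inr j => if h : i < j then y ⟨(i, j), h⟩ else 0
  | _, _ => 0

/-- the product class on `ι ⊕ₗ κ` -/
def prodL {ι κ : Type} (wA : ι → ι → ι → ι → ℤ) (wB : κ → κ → κ → κ → ℤ) (σ : Matrix ι ι ℤ)
    (τ : Matrix κ κ ℤ) (a b c d : ι ⊕ₗ κ) : ℤ :=
  prodW wA wB σ τ (ofLex a) (ofLex b) (ofLex c) (ofLex d)

/-- block sums on `ι ⊕ₗ κ` -/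
def sumL {ι κ : Type} (σ : Matrix ι ι ℤ) (τ : Matrix κ κ ℤ) : Matrix (ι ⊕ₗ κ) (ι ⊕ₗ κ) ℤ :=
  (fromBlocks σ 0 0 τ).submatrix ofLex ofLex

/-- TW-PRODA: the product class, its Gram matrix -/
def PRODA : Prop :=
  ∀ (ι κ : Type) [Fintype ι] [LinearOrder ι] [Fintype κ] [LinearOrder κ]
    (wA : ι → ι → ι → ι → ℤ) (wB : κ → κ → κ → κ → ℤ) (σ : Matrix ι ι ℤ) (τ : Matrix κ κ ℤ),
    Alt wA → Alt wB → σᵀ = -σ → τᵀ = -τ →
    Alt (prodL wA wB σ τ) ∧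
    (∃ e : P (ι ⊕ₗ κ) ≃ (P ι ⊕ P κ) ⊕ (ι × κ),
      gram (prodL wA wB σ τ) =
        (fromBlocks (fromBlocks (gram wA) (vecMulVec (vec σ) (vec τ)) (vecMulVec (vec τ) (vec σ))
          (gram wB)) 0 0 (-(σ ⊗ₖ τ))).submatrix e e) ∧
    (∀ (x : P ι → ℤ) (y : P κ → ℤ), gram (prodL wA wB σ τ) *ᵥ join x y =
      join (gram wA *ᵥ x + (y ⬝ᵥ vec τ) • vec σ) (gram wB *ᵥ y + (x ⬝ᵥ vec σ) • vec τ)) ∧
    (∀ (x x' : P ι → ℤ) (y y' : P κ → ℤ), join x y ⬝ᵥ join x' y' = x ⬝ᵥ x' + y ⬝ᵥ y') ∧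
    (∀ (σa : Matrix ι ι ℤ) (τb : Matrix κ κ ℤ), vec (sumL σa τb) = join (vec σa) (vec τb))

/-- TW-T8: the base of the induction -/
def TEIGHT : Prop := AData (Fin 8) 1

/-- TW-T4: the data of the four-torus -/
def TFOUR : Prop :=
  ∃ (w : Fin 4 → Fin 4 → Fin 4 → Fin 4 → ℤ) (τ₁ τ₂ : Matrix (Fin 4) (Fin 4) ℤ)
    (v₁ v₂ : P (Fin 4) → ℤ),
    Alt w ∧ Typ (gram w) 0 ∧ SP τ₁ ∧ SP τ₂ ∧ gram w *ᵥ v₁ = vec τ₁ ∧ gram w *ᵥ v₂ = vec τ₂ ∧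
      v₁ ⬝ᵥ vec τ₁ = -2 ∧ v₁ ⬝ᵥ vec τ₂ = 0 ∧ v₂ ⬝ᵥ vec τ₁ = 0 ∧ v₂ ⬝ᵥ vec τ₂ = 2

/-- TW-STEP: the two steps of the induction -/
def STEP : Prop :=
  (∀ (ι κ : Type) [Fintype ι] [LinearOrder ι] [Fintype κ] [LinearOrder κ] (k k' : ℕ),
    AData ι k → AData κ k' → AData (ι ⊕ₗ κ) (k + k')) ∧
  (∀ (ι : Type) [Fintype ι] [LinearOrder ι] (k : ℕ), AData ι k → AData (ι ⊕ₗ Fin 4) k)

/-- TW-ISO: change of the index set -/
def ISO : Prop :=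
  ∀ (ι κ : Type) [Fintype ι] [LinearOrder ι] [Fintype κ] [LinearOrder κ] (_ : ι ≃o κ) (k : ℕ)
    (w : ι → ι → ι → ι → ℤ), Alt w → Typ (gram w) k →
    ∃ w' : κ → κ → κ → κ → ℤ, Alt w' ∧ Typ (gram w') k

open Pool.Agent.Results.MP_69cf13_gt.EEightPlusTenH in
/-- TW-PD: Poincaré duality: every antisymmetric `w` comes from a class of degree `n - 4`. -/
def PD : Prop :=
  ∀ (n : ℕ), 4 ≤ n → ∀ (w : Fin n → Fin n → Fin n → Fin n → ℤ), Alt w →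
    ∃ ω ∈ H n (n - 4), ∀ i j k l : Fin n,
      ExteriorAlgebra.ι ℤ (Pi.single i 1 : Fin n → ℤ) *
        ExteriorAlgebra.ι ℤ (Pi.single j 1 : Fin n → ℤ) *
        (ExteriorAlgebra.ι ℤ (Pi.single k 1 : Fin n → ℤ) *
          ExteriorAlgebra.ι ℤ (Pi.single l 1 : Fin n → ℤ)) * ω = w i j k l • T n

/-- The Gram matrix of the lattice `k E₈ ⊕ l H`. -/
def gramEH (k l : ℕ) : Matrix ((Fin k × Fin 8) ⊕ (Fin l × Fin 2))
    ((Fin k × Fin 8) ⊕ (Fin l × Fin 2)) ℤ :=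
  fromBlocks ((1 : Matrix (Fin k) (Fin k) ℤ) ⊗ₖ CartanMatrix.E₈) 0 0
    ((1 : Matrix (Fin l) (Fin l) ℤ) ⊗ₖ !![0, 1; 1, 0])

open Pool.Agent.Results.MP_69cf13_gt.EEightPlusTenH in
/-- some class in degree `n - 4` has the form `k E₈ ⊕ l H`, where `8 k + 2 l = n (n - 1) / 2` -/
def Realized (n k : ℕ) : Prop :=
  ∃ ω ∈ H n (n - 4), ∃ φ : Coh n → Coh n → ℤ, IsFormOf (H n 2) ω (T n) φ ∧
    ∃ (l : ℕ) (b : (Fin k × Fin 8) ⊕ (Fin l × Fin 2) → Coh n), 8 * k + 2 * l = n.choose 2 ∧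
      IsZBasis (H n 2) b ∧ ∀ i j, φ (b i) (b j) = gramEH k l i j

/-- TW-FIN: from the antisymmetric function to the class -/
def FIN : Prop :=
  ∀ (n k : ℕ) (w : Fin n → Fin n → Fin n → Fin n → ℤ), 4 ≤ n → Alt w → Typ (gram w) k →
    Realized n k

end Pool.Agent.Y466.TW
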