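import Pool.Agent.Y466.TW.Stm

/-! # Unimodular classes on tori: the induction -/

set_option autoImplicit false
set_option synthInstance.maxSize 100000

namespace Pool.Agent.Y466.TW

open Matrix
open scoped Kronecker

lemma SP.skew {ι : Type} [Fintype ι] [DecidableEq ι] {σ : Matrix ι ι ℤ} (h : SP σ) :
    σᵀ = -σ := by
  obtain ⟨α, _, _, Q, R, h1, h2, h3⟩ := h
  have h4 : σ = Rᵀ * J α * R := by
    rw [← h3]
    calc σ = (Q * R)ᵀ * σ * (Q * R) := by rw [h1]; simp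
      _ = Rᵀ * (Qᵀ * σ * Q) * R := by
        rw [transpose_mul]
        simp only [Matrix.mul_assoc]
  have h5 : (J α)ᵀ = -J α := by
    unfold J
    rw [fromBlocks_transpose, fromBlocks_neg]
    simp
  rw [h4]
  simp only [transpose_mul, transpose_transpose, h5]
  simp [Matrix.mul_assoc]

lemma Alt.symm {ι : Type} {w : ι → ι → ι → ι → ℤ} (h : Alt w) (i j k l : ι) :
    w k l i j = w i j k l := by
  obtain ⟨h1, h2, h3⟩ := h
  calc w k l i j = -w k i l j := h2 _ _ _ _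
    _ = w i k l j := by rw [h1 i k l j]; ring
    _ = -w i k j l := by rw [h3 i k j l]
    _ = w i j k l := by rw [h2 i j k l]; ring

lemma Alt.gram_symm {ι : Type} [LinearOrder ι] {w : ι → ι → ι → ι → ℤ} (h : Alt w) :
    (gram w)ᵀ = gram w := by
  ext p q
  exact h.symm _ _ _ _

lemma pair_symm {α : Type} [Fintype α] {G : Matrix α α ℤ} (hG : Gᵀ = G) {u v s t : α → ℤ}
    (hu : G *ᵥ u = s) (hv : G *ᵥ v = t) : v ⬝ᵥ s = u ⬝ᵥ t := by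
  rw [← hu, ← hv, dotProduct_mulVec, dotProduct_comm, ← mulVec_transpose, hG]

lemma typ_prod (ha : CONGA) (hb : CONGB) (hp : PRODA) {ι κ : Type} [Fintype ι] [LinearOrder ι]
    [Fintype κ] [LinearOrder κ] {wA : ι → ι → ι → ι → ℤ} {wB : κ → κ → κ → κ → ℤ}
    {σ : Matrix ι ι ℤ} {τ : Matrix κ κ ℤ} {u : P ι → ℤ} {k k' : ℕ} (hA : Alt wA) (hB : Alt wB)
    (tA : Typ (gram wA) k) (tB : Typ (gram wB) k') (hσ : SP σ) (hτ : SP τ)
    (hu : gram wA *ᵥ u = vec σ) (h0 : u ⬝ᵥ vec σ = 0) :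
    Typ (gram (prodL wA wB σ τ)) (k + k') := by
  obtain ⟨_, ⟨e, he⟩, _⟩ := hp ι κ wA wB σ τ hA hB hσ.skew hτ.skew
  obtain ⟨a1, a2, a3, _, a5⟩ := ha
  have h1 := a5 _ _ (gram wA) (gram wB) (vec σ) u (vec τ) hA.gram_symm hu h0
  have h2 := a3 _ _ _ _ _ _ (-(σ ⊗ₖ τ)) (-(σ ⊗ₖ τ)) h1
    (by simpa using (a2 _ _ (-(σ ⊗ₖ τ)) (Equiv.refl _)).1)
  have h3 := (a2 _ _ (fromBlocks (fromBlocks (gram wA) (vecMulVec (vec σ) (vec τ))
    (vecMulVec (vec τ) (vec σ)) (gram wB)) 0 0 (-(σ ⊗ₖ τ))) e).2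
  rw [← he] at h3
  have h4 := a1 _ _ _ _ _ _ h3 h2
  have h5 := hb.2 _ _ _ _ _ _ _ (hb.1 _ _ _ _ _ _ tA tB) hσ hτ
  obtain ⟨α, β, _, _, _, _, hc, h6⟩ := h5
  exact ⟨α, β, _, _, _, _, hc, a1 _ _ _ _ _ _ h4 h6⟩

lemma SP_sumL (ha : CONGA) {ι κ : Type} [Fintype ι] [LinearOrder ι] [Fintype κ] [LinearOrder κ]
    {σ : Matrix ι ι ℤ} {τ : Matrix κ κ ℤ} (hσ : SP σ) (hτ : SP τ) : SP (sumL σ τ) := by
  obtain ⟨α, _, _, h⟩ := ha.2.2.2.1 _ _ σ τ hσ hτ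
  have h1 := (ha.2.1 (ι ⊕ κ) (ι ⊕ₗ κ) (fromBlocks σ 0 0 τ) ofLex).2
  exact ⟨α, _, _, ha.1 _ _ _ _ _ _ h1 h⟩

lemma Typ_inst {ι : Type} (f f' : Fintype ι) (d d' : DecidableEq ι) (G : Matrix ι ι ℤ) (k : ℕ)
    (h : @Typ ι f d G k) : @Typ ι f' d' G k := by
  have e1 : f = f' := Subsingleton.elim _ _
  have e2 : d = d' := Subsingleton.elim _ _
  subst e1
  subst e2
  exact h

lemma SP_inst {ι : Type} (f f' : Fintype ι) (d d' : DecidableEq ι) (G : Matrix ι ι ℤ)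
    (h : @SP ι f d G) : @SP ι f' d' G := by
  have e1 : f = f' := Subsingleton.elim _ _
  have e2 : d = d' := Subsingleton.elim _ _
  subst e1
  subst e2
  exact h

theorem step (ha : CONGA) (hb : CONGB) (hp : PRODA) (h4 : TFOUR) : STEP := by
  constructor
  · intro ι κ _ _ _ _ k k' hA hB
    obtain ⟨wA, σ₁, σ₂, u₁, u₂, hA, tA, s1, s2, e1, e2, n11, n12, n22⟩ := hA
    obtain ⟨wB, τ₁, τ₂, v₁, v₂, hB, tB, r1, r2, f1, f2, m11, m12, m22⟩ := hB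
    obtain ⟨p1, _, p3, p4, p5⟩ := hp ι κ wA wB σ₁ τ₁ hA hB s1.skew r1.skew
    have m21 : v₂ ⬝ᵥ vec τ₁ = 0 := by rw [pair_symm hB.gram_symm f1 f2, m12]
    refine ⟨prodL wA wB σ₁ τ₁, sumL σ₁ τ₁, sumL σ₁ τ₂, join u₁ v₁, join u₁ v₂, p1,
      typ_prod ha hb hp hA hB tA tB s1 r1 e1 n11, SP_sumL ha s1 r1, SP_sumL ha s1 r2, ?_, ?_, ?_,
      ?_, ?_⟩
    · rw [p3, p5, e1, f1, m11, n11]
      simp
    · rw [p3, p5, e1, f2, m21, n11]
      simp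
    · rw [p5, p4, n11, m11]
      simp
    · rw [p5, p4, n11, m12]
      simp
    · rw [p5, p4, n11, m22]
      simp
  · intro ι _ _ k hA
    obtain ⟨wA, σ₁, σ₂, u₁, u₂, hA, tA, s1, s2, e1, e2, n11, n12, n22⟩ := hA
    obtain ⟨wB, τ₁, τ₂, v₁, v₂, hB, tB, r1, r2, f1, f2, m11, m12, m21, m22⟩ := h4
    obtain ⟨p1, _, p3, p4, p5⟩ := hp ι (Fin 4) wA wB σ₁ τ₂ hA hB s1.skew r2.skew
    have n21 : u₂ ⬝ᵥ vec σ₁ = 0 := by rw [pair_symm hA.gram_symm e1 e2, n12]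
    refine ⟨prodL wA wB σ₁ τ₂, sumL σ₂ τ₁, sumL σ₁ τ₂, join u₂ v₁, join (-u₁) v₂, p1,
      ?_, ?_, ?_, ?_, ?_, ?_, ?_, ?_⟩
    · have h := typ_prod ha hb hp hA hB tA tB s1 r2 e1 n11
      rw [add_zero] at h
      exact Typ_inst _ _ _ _ _ _ h
    · exact SP_inst _ _ _ _ _ (SP_sumL ha s2 r1)
    · exact SP_inst _ _ _ _ _ (SP_sumL ha s1 r2)
    · rw [p3, p5, e2, f1, m12, n21]
      simp
    · rw [p3, p5, mulVec_neg, e1, f2, m22, neg_dotProduct, n11]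
      congr 1
      · rw [two_smul]; abel
      · simp
    · rw [p5, p4, n22, m11]
      simp
    · rw [p5, p4, n21, m12]
      simp
    · rw [p5, p4, neg_dotProduct, n11, m22]
      simp

/-- the induction -/
theorem exists_data (hs : STEP) (h8 : TEIGHT) (k b : ℕ) (hk : 1 ≤ k) :
    ∃ (ι : Type) (_ : Fintype ι) (_ : LinearOrder ι), Fintype.card ι = 8 * k + 4 * b ∧
      AData ι k := by
  induction b with
  | zero =>
    induction k, hk using Nat.le_induction with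
    | base => exact ⟨Fin 8, _, _, by simp, h8⟩
    | succ k _ ih =>
      obtain ⟨ι, _, _, h1, h2⟩ := ih
      refine ⟨ι ⊕ₗ Fin 8, inferInstance, inferInstance, ?_, hs.1 _ _ _ _ h2 h8⟩
      have : Fintype.card (ι ⊕ₗ Fin 8) = Fintype.card (ι ⊕ Fin 8) := rfl
      rw [this, Fintype.card_sum, h1, Fintype.card_fin]
      ring
  | succ b ih =>
    obtain ⟨ι, _, _, h1, h2⟩ := ih
    refine ⟨ι ⊕ₗ Fin 4, inferInstance, inferInstance, ?_, hs.2 _ _ h2⟩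
    have : Fintype.card (ι ⊕ₗ Fin 4) = Fintype.card (ι ⊕ Fin 4) := rfl
    rw [this, Fintype.card_sum, h1, Fintype.card_fin]
    ring

theorem main (ha : CONGA) (hb : CONGB) (hp : PRODA) (h4 : TFOUR) (h8 : TEIGHT) (hi : ISO)
    (hf : FIN) (n k : ℕ) (hn : 4 ∣ n) (hk : 1 ≤ k) (hkn : 8 * k ≤ n) : Realized n k := by
  obtain ⟨ι, _, _, h1, w, _, _, _, _, h2, h3, _⟩ :=
    exists_data (step ha hb hp h4) h8 k ((n - 8 * k) / 4) hk
  have h5 : Fintype.card ι = n := by omega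
  have e : Fin n ≃o ι := Fintype.orderIsoFinOfCardEq ι h5
  obtain ⟨w', h6, h7⟩ := hi ι (Fin n) e.symm k w h2 h3
  exact hf n k w' (by omega) h6 h7

end Pool.Agent.Y466.TW
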